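import Pool.Agent.Helper51.CX.St
import Pool.Agent.Helper62.CX.Rank

set_option autoImplicit false

/-!
# Project CX (MP_a41ee4_co): module RD (rank, fourth step).
-/

namespace Pool.Agent.Helper61.CX

open Module
open Pool.Agent.Helper51.CX

section

variable {K : Type} [Field K] [LinearOrder K] [IsStrictOrderedRing K]

/-- The rows have trivial common kernel. -/
theorem cc_span (x : Fin 6 → K) (hx : ∀ n, cc K n x = 0) : x = 0 := by
  obtain ⟨_, h0, h1, h2, h3, h4, h5, h6, h7, h8, h9⟩ :=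
    (forall_rows (K := K) (fun c _ => c x = 0)).1 hx
  simp only [RX_apply, RY_apply, RZ_apply] at h0 h1 h2 h3 h4 h5 h6 h7 h8 h9
  have e5 : x 5 = 0 := by linarith
  have e0 : x 0 = 0 := by linarith
  have e2 : x 2 = 0 := by linarith
  have e3 : x 3 = 0 := by linarith
  have e4 : x 4 = 0 := by linarith
  have e1 : x 1 = 0 := by linarith
  funext i
  fin_cases i
  · exact e0
  · exact e1
  · exact e2
  · exact e3
  · exact e4
  · exact e5

/-- The common part of the four cases. -/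
theorem core (j : ℕ) (h1 : 32 ≤ j) (h2 : j < 64) (d : Fin 6 → K)
    (hC : Pool.Agent.Helper4.CD.IsCircuit (cc K) d)
    (hM : ∀ k < 66, k ≠ j → k ≠ ga j → k ≠ gb j → ¬ Mem k d) (f : Dual K (Fin 6 → K))
    (hf : ∀ x, f x = 0 → (RY 1 d = 0 → RY 1 x = 0) ∧ (RY (-1) d = 0 → RY (-1) x = 0) ∧
      (RZ 2 1 d = 0 → RZ 2 1 x = 0) ∧ (RZ 2 (-1) d = 0 → RZ 2 (-1) x = 0) ∧
      (RZ 3 1 d = 0 → RZ 3 1 x = 0) ∧ (RZ 3 (-1) d = 0 → RZ 3 (-1) x = 0) ∧
      (RZ 4 1 d = 0 → RZ 4 1 x = 0) ∧ (RZ 4 (-1) d = 0 → RZ 4 (-1) x = 0)) : False := by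
  obtain ⟨_, _, _, _, _, _, hga, hgb, _⟩ := hT1 j h2 h1
  have m65 : ¬ |d 0| = 50 * |d 5| := fun h =>
    hM 65 (by norm_num) (by omega) (by omega) (by omega) ((Mem_65 d).2 h)
  refine Pool.Agent.Helper62.CX.rank_lemma (cc K) d hC cc_span 4
    ![VR K j, VR K (ga j), VR K (gb j), f] (by simp) ?_
  intro k hk x hx
  have x0 : L j x = 0 := by
    have h := hx 0
    simp only [Matrix.cons_val_zero, VR_apply, neg_eq_zero] at h
    exact h
  have x1 : L (ga j) x = 0 := by
    have h := hx 1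
    simp only [Matrix.cons_val_one, Matrix.cons_val_zero, VR_apply, neg_eq_zero] at h
    exact h
  have x2 : L (gb j) x = 0 := by
    have h := hx 2
    have h' : VR K (gb j) x = 0 := h
    simp only [VR_apply, neg_eq_zero] at h'
    exact h'
  have x3 : f x = 0 := hx 3
  obtain ⟨a1, a2, a3, a4, a5, a6, a7, a8⟩ := hf x x3
  have key : ∀ n, cc K n d = 0 → cc K n x = 0 := by
    refine (forall_rows (K := K) (fun c _ => c d = 0 → c x = 0)).2
      ⟨?_, ?_, ?_, a1, a2, a3, a4, a5, a6, a7, a8⟩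
    · intro k hk h
      rw [VR_apply, neg_eq_zero] at h ⊢
      by_cases c0 : k = j
      · rw [c0]; exact x0
      by_cases c1 : k = ga j
      · rw [c1]; exact x1
      by_cases c2 : k = gb j
      · rw [c2]; exact x2
      exact absurd ((Mem_lt hk d).2 h) (hM k (by omega) c0 c1 c2)
    · intro h
      exfalso
      rw [RX_apply] at h
      apply m65
      have e : d 0 = 50 * d 5 := by linarith
      rw [e, abs_mul]
      norm_num
    · intro h
      exfalso
      rw [RX_apply] at h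
      apply m65
      have e : d 0 = -(50 * d 5) := by linarith
      rw [e, abs_neg, abs_mul]
      norm_num
  exact key k hk

/-- No row `RY` vanishes. -/
theorem not_RY (d : Fin 6 → K) (h : ¬ MY d) : RY 1 d ≠ 0 ∧ RY (-1) d ≠ 0 := by
  constructor
  · intro h'
    rw [RY_apply] at h'
    apply h
    unfold MY
    have e : d 1 - (d 2 + 3 * d 3 + 9 * d 4) = 50 * d 5 := by linarith
    rw [e, abs_mul]
    norm_num
  · intro h'
    rw [RY_apply] at h'
    apply h
    unfold MY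
    have e : d 1 - (d 2 + 3 * d 3 + 9 * d 4) = -(50 * d 5) := by linarith
    rw [e, abs_neg, abs_mul]
    norm_num

/-- No row `RZ a` vanishes. -/
theorem not_RZ (a : Fin 6) (d : Fin 6 → K) (h : ¬ MZ a d) : RZ a 1 d ≠ 0 ∧ RZ a (-1) d ≠ 0 := by
  constructor
  · intro h'
    rw [RZ_apply] at h'
    apply h
    unfold MZ
    have e : d a = d 5 := by linarith
    rw [e]
  · intro h'
    rw [RZ_apply] at h'
    apply h
    unfold MZ
    have e : d a = -d 5 := by linarith
    rw [e, abs_neg]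

/-- One form for the two rows `RY`. -/
theorem one_RY (d : Fin 6 → K) (h5 : d 5 ≠ 0) : ∃ f : Dual K (Fin 6 → K), ∀ x, f x = 0 →
    (RY 1 d = 0 → RY 1 x = 0) ∧ (RY (-1) d = 0 → RY (-1) x = 0) := by
  by_cases h : RY 1 d = 0
  · refine ⟨RY 1, fun x hx => ⟨fun _ => hx, fun h' => ?_⟩⟩
    exfalso
    rw [RY_apply] at h h'
    apply h5
    linarith
  · exact ⟨RY (-1), fun x hx => ⟨fun h' => absurd h' h, fun _ => hx⟩⟩

/-- One form for the two rows `RZ a`. -/
theorem one_RZ (a : Fin 6) (d : Fin 6 → K) (h5 : d 5 ≠ 0) : ∃ f : Dual K (Fin 6 → K), ∀ x, f x = 0 →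
    (RZ a 1 d = 0 → RZ a 1 x = 0) ∧ (RZ a (-1) d = 0 → RZ a (-1) x = 0) := by
  by_cases h : RZ a 1 d = 0
  · refine ⟨RZ a 1, fun x hx => ⟨fun _ => hx, fun h' => ?_⟩⟩
    exfalso
    rw [RZ_apply] at h h'
    apply h5
    linarith
  · exact ⟨RZ a (-1), fun x hx => ⟨fun h' => absurd h' h, fun _ => hx⟩⟩

end

/-- Module RD. -/
theorem hRD : StRD := by
  intro K _ _ _ j h1 h2 d hC hM
  obtain ⟨_, _, _, _, _, _, hga, hgb, _⟩ := hT1 j h2 h1
  have h5 : d 5 ≠ 0 := fun h =>
    hM 64 (by norm_num) (by omega) (by omega) (by omega) ((Mem_64 d).2 h)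
  refine ⟨?_, ?_, ?_, ?_⟩
  · by_contra hcon
    push Not at hcon
    obtain ⟨c1, c2, c3⟩ := hcon
    obtain ⟨f, hf⟩ := one_RZ 4 d h5
    exact core j h1 h2 d hC hM f fun x hx => ⟨fun h => absurd h (not_RY d c1).1,
      fun h => absurd h (not_RY d c1).2, fun h => absurd h (not_RZ 2 d c2).1,
      fun h => absurd h (not_RZ 2 d c2).2, fun h => absurd h (not_RZ 3 d c3).1,
      fun h => absurd h (not_RZ 3 d c3).2, (hf x hx).1, (hf x hx).2⟩
  · by_contra hcon
    push Not at hcon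
    obtain ⟨c1, c2, c3⟩ := hcon
    obtain ⟨f, hf⟩ := one_RZ 3 d h5
    exact core j h1 h2 d hC hM f fun x hx => ⟨fun h => absurd h (not_RY d c1).1,
      fun h => absurd h (not_RY d c1).2, fun h => absurd h (not_RZ 2 d c2).1,
      fun h => absurd h (not_RZ 2 d c2).2, (hf x hx).1, (hf x hx).2,
      fun h => absurd h (not_RZ 4 d c3).1, fun h => absurd h (not_RZ 4 d c3).2⟩
  · by_contra hcon
    push Not at hcon
    obtain ⟨c1, c2, c3⟩ := hcon
    obtain ⟨f, hf⟩ := one_RZ 2 d h5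
    exact core j h1 h2 d hC hM f fun x hx => ⟨fun h => absurd h (not_RY d c1).1,
      fun h => absurd h (not_RY d c1).2, (hf x hx).1, (hf x hx).2,
      fun h => absurd h (not_RZ 3 d c2).1, fun h => absurd h (not_RZ 3 d c2).2,
      fun h => absurd h (not_RZ 4 d c3).1, fun h => absurd h (not_RZ 4 d c3).2⟩
  · by_contra hcon
    push Not at hcon
    obtain ⟨c1, c2, c3⟩ := hcon
    obtain ⟨f, hf⟩ := one_RY d h5
    exact core j h1 h2 d hC hM f fun x hx => ⟨(hf x hx).1, (hf x hx).2,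
      fun h => absurd h (not_RZ 2 d c1).1, fun h => absurd h (not_RZ 2 d c1).2,
      fun h => absurd h (not_RZ 3 d c2).1, fun h => absurd h (not_RZ 3 d c2).2,
      fun h => absurd h (not_RZ 4 d c3).1, fun h => absurd h (not_RZ 4 d c3).2⟩

end Pool.Agent.Helper61.CX
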